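import Mathlib
import Pool.Agent.Y817.ISO.Stm
import Pool.Agent.H665Simp.DefsU
import Pool.Agent.H665Simp.P_der_iff

set_option autoImplicit false

/-! Part RE of the project ISO: isomorphism of finite presentations is computably enumerable. -/

namespace Pool.Agent.X25.ISO

open Pool.Agent.Y817.ISO Pool.Agent.H665Simp

/-! ### The two presentations -/

theorem map_filterMap (K : ℕ) (w : Wd) :
    (w.filterMap (fun q => if h : q.1 < K then some ((⟨q.1, h⟩ : Fin K), q.2) else none)).map
      (fun x => ((x.1 : ℕ), x.2)) = filt K w := by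
  induction w with
  | nil => rfl
  | cons l w ih =>
    by_cases h : l.1 < K
    · rw [List.filterMap_cons]
      simp only [h, dif_pos, List.map_cons]
      rw [ih]
      unfold filt
      rw [List.filter_cons_of_pos (by simpa using h)]
    · rw [List.filterMap_cons]
      simp only [h, dif_neg, not_false_eq_true]
      rw [ih]
      unfold filt
      rw [List.filter_cons_of_neg (by simpa using h)]

theorem map_val (K : ℕ) (w : Wd) :
    FreeGroup.map (Fin.val : Fin K → ℕ) (FreeGroup.mk (w.filterMap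
      (fun q => if h : q.1 < K then some ((⟨q.1, h⟩ : Fin K), q.2) else none))) =
      ph K (FreeGroup.mk w) := by
  rw [FreeGroup.map.mk, ph_mk, ← map_filterMap K w]

/-- The presentation over the free group on `ℕ`. -/
abbrev PN (a : ℕ × List Wd) : Type := PresentedGroup (relsN a.1 a.2)

theorem mk_ph (a : ℕ × List Wd) :
    (PresentedGroup.mk (relsN a.1 a.2)).comp (ph a.1) = PresentedGroup.mk (relsN a.1 a.2) := by
  apply FreeGroup.ext_hom
  intro i
  rw [MonoidHom.comp_apply]
  unfold ph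
  rw [FreeGroup.lift_apply_of]
  by_cases hi : i < a.1
  · rw [if_pos hi]
  · rw [if_neg hi, map_one]
    exact (PresentedGroup.one_of_mem (Or.inl ⟨i, not_lt.1 hi, rfl⟩)).symm

theorem of_eq_one (a : ℕ × List Wd) (i : ℕ) (hi : a.1 ≤ i) :
    (PresentedGroup.of i : PN a) = 1 :=
  PresentedGroup.one_of_mem (Or.inl ⟨i, hi, rfl⟩)

/-- extension by `1` -/
def psi0 (a : ℕ × List Wd) (i : ℕ) : PG a :=
  if h : i < a.1 then PresentedGroup.of (⟨i, h⟩ : Fin a.1) else 1

theorem psi0_map (a : ℕ × List Wd) (g : FreeGroup (Fin a.1)) :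
    FreeGroup.lift (psi0 a) (FreeGroup.map Fin.val g) = PresentedGroup.mk (relSet a) g := by
  have h : (FreeGroup.lift (psi0 a)).comp (FreeGroup.map (Fin.val : Fin a.1 → ℕ)) =
      PresentedGroup.mk (relSet a) := by
    apply FreeGroup.ext_hom
    intro i
    rw [MonoidHom.comp_apply, FreeGroup.map.of, FreeGroup.lift_apply_of]
    unfold psi0
    rw [dif_pos i.2]
    rfl
  exact DFunLike.congr_fun h g

theorem psi0_ph (a : ℕ × List Wd) (g : FreeGroup ℕ) :
    FreeGroup.lift (psi0 a) (ph a.1 g) = FreeGroup.lift (psi0 a) g := by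
  have h : (FreeGroup.lift (psi0 a)).comp (ph a.1) = FreeGroup.lift (psi0 a) := by
    apply FreeGroup.ext_hom
    intro i
    rw [MonoidHom.comp_apply]
    unfold ph
    rw [FreeGroup.lift_apply_of]
    by_cases hi : i < a.1
    · rw [if_pos hi]
    · rw [if_neg hi, map_one, FreeGroup.lift_apply_of]
      unfold psi0
      rw [dif_neg hi]
  exact DFunLike.congr_fun h g

theorem phi_rel (a : ℕ × List Wd) : ∀ r ∈ relSet a,
    FreeGroup.lift (fun i : Fin a.1 => (PresentedGroup.of (i : ℕ) : PN a)) r = 1 := by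
  rintro r ⟨w, hw, rfl⟩
  have h : FreeGroup.lift (fun i : Fin a.1 => (PresentedGroup.of (i : ℕ) : PN a)) =
      (PresentedGroup.mk (relsN a.1 a.2)).comp (FreeGroup.map (Fin.val : Fin a.1 → ℕ)) := by
    apply FreeGroup.ext_hom
    intro i
    rw [MonoidHom.comp_apply, FreeGroup.map.of, FreeGroup.lift_apply_of]
    rfl
  rw [h, MonoidHom.comp_apply, map_val, ← MonoidHom.comp_apply, mk_ph]
  exact PresentedGroup.one_of_mem (Or.inr ⟨w, hw, rfl⟩)

theorem psi_rel (a : ℕ × List Wd) : ∀ r ∈ relsN a.1 a.2, FreeGroup.lift (psi0 a) r = 1 := by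
  rintro r (⟨i, hi, rfl⟩ | ⟨w, hw, rfl⟩)
  · rw [FreeGroup.lift_apply_of]
    unfold psi0
    rw [dif_neg (by omega)]
  · rw [← psi0_ph, ← map_val, psi0_map]
    exact PresentedGroup.one_of_mem ⟨w, hw, rfl⟩

/-- The two presentations define isomorphic groups. -/
def equivN (a : ℕ × List Wd) : PG a ≃* PN a :=
  MonoidHom.toMulEquiv (PresentedGroup.toGroup (phi_rel a)) (PresentedGroup.toGroup (psi_rel a))
    (by
      apply PresentedGroup.ext
      intro i
      rw [MonoidHom.comp_apply, PresentedGroup.toGroup.of, PresentedGroup.toGroup.of]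
      unfold psi0
      rw [dif_pos i.2]
      rfl)
    (by
      apply PresentedGroup.ext
      intro i
      rw [MonoidHom.comp_apply, PresentedGroup.toGroup.of]
      unfold psi0
      by_cases hi : i < a.1
      · rw [dif_pos hi, PresentedGroup.toGroup.of]
        rfl
      · rw [dif_neg hi, map_one]
        exact (of_eq_one a i (by omega)).symm)

/-! ### Substitution -/

/-- substitute the words of `F` for the generators -/
def sub (F : List Wd) (w : Wd) : Wd :=
  w.flatMap (fun l => if l.2 = true then F.getD l.1 [] else inv (F.getD l.1 []))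

/-- the homomorphism of a substitution -/
def sg (F : List Wd) : FreeGroup ℕ →* FreeGroup ℕ :=
  FreeGroup.lift (fun i => FreeGroup.mk (F.getD i []))

theorem mk_sub (F : List Wd) (w : Wd) : FreeGroup.mk (sub F w) = sg F (FreeGroup.mk w) := by
  induction w with
  | nil =>
    have h1 : sub F [] = [] := rfl
    rw [h1, mk_nil', map_one]
  | cons l w ih =>
    have h1 : FreeGroup.mk (l :: w) = FreeGroup.mk [l] * FreeGroup.mk w := by
      rw [← mk_app]
      rfl
    have h2 : sub F (l :: w) = (if l.2 = true then F.getD l.1 [] else inv (F.getD l.1 [])) ++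
        sub F w := by
      unfold sub
      rw [List.flatMap_cons]
    rw [h1, map_mul, ← ih, h2, mk_app]
    congr 1
    obtain ⟨i, b⟩ := l
    cases b
    · have h3 : (FreeGroup.mk [(i, false)] : FreeGroup ℕ) = (FreeGroup.of i)⁻¹ := by
        rw [show (FreeGroup.of i : FreeGroup ℕ) = FreeGroup.mk [(i, true)] from rfl,
          FreeGroup.inv_mk]
        rfl
      rw [if_neg (by simp), inv_eq, h3, map_inv]
      unfold sg
      rw [FreeGroup.lift_apply_of]
    · rw [if_pos rfl]
      show _ = sg F (FreeGroup.of i)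
      unfold sg
      rw [FreeGroup.lift_apply_of]

theorem mk_sub_inv (F : List Wd) (w : Wd) (i : ℕ) :
    FreeGroup.mk (sub F w ++ [(i, false)]) = sg F (FreeGroup.mk w) * (FreeGroup.of i)⁻¹ := by
  rw [mk_app, mk_sub]
  congr 1

/-! ### The criterion -/

/-- One half of the criterion. -/
def Half (a b : ℕ × List Wd) (F G : List Wd) : Prop :=
  F.length ≤ a.1 ∧ (∀ w ∈ a.2, FreeGroup.mk (sub F w) ∈ Subgroup.normalClosure (relsN b.1 b.2)) ∧
    ∀ i ∈ List.range a.1, FreeGroup.mk (sub G (F.getD i []) ++ [(i, false)]) ∈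
      Subgroup.normalClosure (relsN a.1 a.2)

theorem exists_words (a b : ℕ × List Wd) (e : PN a ≃* PN b) :
    ∃ F : List Wd, F.length ≤ a.1 ∧
      (PresentedGroup.mk (relsN b.1 b.2)).comp (sg F) =
        e.toMonoidHom.comp (PresentedGroup.mk (relsN a.1 a.2)) := by
  have h1 : ∀ i : ℕ, ∃ w : Wd, PresentedGroup.mk (relsN b.1 b.2) (FreeGroup.mk w) =
      e (PresentedGroup.of i) := by
    intro i
    obtain ⟨y, hy⟩ := PresentedGroup.mk_surjective (relsN b.1 b.2) (e (PresentedGroup.of i))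
    exact ⟨y.toWord, by rw [FreeGroup.mk_toWord, hy]⟩
  choose f hf using h1
  refine ⟨(List.range a.1).map f, by simp, ?_⟩
  apply FreeGroup.ext_hom
  intro i
  rw [MonoidHom.comp_apply, MonoidHom.comp_apply]
  unfold sg
  rw [FreeGroup.lift_apply_of]
  show _ = e (PresentedGroup.of i)
  by_cases hi : i < a.1
  · rw [List.getD_eq_getElem _ _ (by simpa using hi)]
    simp only [List.getElem_map, List.getElem_range]
    exact hf i
  · rw [List.getD_eq_default _ _ (by simpa using hi), mk_nil', map_one, of_eq_one a i (by omega),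
      map_one]

theorem half_of (a b : ℕ × List Wd) (e : PN a ≃* PN b) (F G : List Wd) (hF0 : F.length ≤ a.1)
    (hF : (PresentedGroup.mk (relsN b.1 b.2)).comp (sg F) =
        e.toMonoidHom.comp (PresentedGroup.mk (relsN a.1 a.2)))
    (hG : (PresentedGroup.mk (relsN a.1 a.2)).comp (sg G) =
        e.symm.toMonoidHom.comp (PresentedGroup.mk (relsN b.1 b.2))) : Half a b F G := by
  have hF' : ∀ x, PresentedGroup.mk (relsN b.1 b.2) (sg F x) =
      e (PresentedGroup.mk (relsN a.1 a.2) x) := fun x => DFunLike.congr_fun hF x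
  have hG' : ∀ x, PresentedGroup.mk (relsN a.1 a.2) (sg G x) =
      e.symm (PresentedGroup.mk (relsN b.1 b.2) x) := fun x => DFunLike.congr_fun hG x
  refine ⟨hF0, ?_, ?_⟩
  · intro w hw
    rw [← PresentedGroup.mk_eq_one_iff, mk_sub, hF']
    have h1 : PresentedGroup.mk (relsN a.1 a.2) (FreeGroup.mk w) = 1 :=
      PresentedGroup.one_of_mem (Or.inr ⟨w, hw, rfl⟩)
    rw [h1, map_one]
  · intro i _
    rw [← PresentedGroup.mk_eq_one_iff, mk_sub_inv, map_mul, hG', map_inv]
    have h2 := hF' (FreeGroup.of i)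
    have h3 : sg F (FreeGroup.of i) = FreeGroup.mk (F.getD i []) := by
      unfold sg
      rw [FreeGroup.lift_apply_of]
    rw [h3] at h2
    rw [h2, MulEquiv.symm_apply_apply, mul_inv_cancel]

theorem hom_of_half (a b : ℕ × List Wd) (F G : List Wd) (h : Half a b F G) :
    ∃ φ : PN a →* PN b, ∀ x, φ (PresentedGroup.mk (relsN a.1 a.2) x) =
      PresentedGroup.mk (relsN b.1 b.2) (sg F x) := by
  have hr : ∀ r ∈ relsN a.1 a.2,
      FreeGroup.lift (fun i => PresentedGroup.mk (relsN b.1 b.2) (sg F (FreeGroup.of i))) r = 1 := by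
    have h1 : FreeGroup.lift (fun i => PresentedGroup.mk (relsN b.1 b.2) (sg F (FreeGroup.of i))) =
        (PresentedGroup.mk (relsN b.1 b.2)).comp (sg F) := by
      apply FreeGroup.ext_hom
      intro i
      rw [FreeGroup.lift_apply_of]
      rfl
    rw [h1]
    rintro r (⟨i, hi, rfl⟩ | ⟨w, hw, rfl⟩)
    · rw [MonoidHom.comp_apply]
      unfold sg
      rw [FreeGroup.lift_apply_of, List.getD_eq_default _ _ (h.1.trans hi), mk_nil', map_one]
    · rw [MonoidHom.comp_apply, ← mk_sub, PresentedGroup.mk_eq_one_iff]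
      exact h.2.1 w hw
  refine ⟨PresentedGroup.toGroup hr, ?_⟩
  have h2 : (PresentedGroup.toGroup hr).comp (PresentedGroup.mk (relsN a.1 a.2)) =
      (PresentedGroup.mk (relsN b.1 b.2)).comp (sg F) := by
    apply FreeGroup.ext_hom
    intro i
    rw [MonoidHom.comp_apply, MonoidHom.comp_apply]
    exact PresentedGroup.toGroup.of hr
  exact fun x => DFunLike.congr_fun h2 x

theorem comp_id (a b : ℕ × List Wd) (F G : List Wd) (h : Half a b F G) (φ : PN a →* PN b)
    (ψ : PN b →* PN a)
    (hφ : ∀ x, φ (PresentedGroup.mk (relsN a.1 a.2) x) =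
      PresentedGroup.mk (relsN b.1 b.2) (sg F x))
    (hψ : ∀ x, ψ (PresentedGroup.mk (relsN b.1 b.2) x) =
      PresentedGroup.mk (relsN a.1 a.2) (sg G x)) : ψ.comp φ = MonoidHom.id _ := by
  apply PresentedGroup.ext
  intro i
  rw [MonoidHom.comp_apply, MonoidHom.id_apply]
  by_cases hi : i < a.1
  · have h1 := h.2.2 i (List.mem_range.2 hi)
    rw [← PresentedGroup.mk_eq_one_iff, mk_sub_inv, map_mul, map_inv, mul_inv_eq_one] at h1
    have h3 : sg F (FreeGroup.of i) = FreeGroup.mk (F.getD i []) := by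
      unfold sg
      rw [FreeGroup.lift_apply_of]
    show ψ (φ (PresentedGroup.mk (relsN a.1 a.2) (FreeGroup.of i))) =
      PresentedGroup.mk (relsN a.1 a.2) (FreeGroup.of i)
    rw [hφ, hψ, h3, h1]
  · rw [of_eq_one a i (by omega), map_one, map_one]

theorem iso_iff (a b : ℕ × List Wd) : Nonempty (PG a ≃* PG b) ↔
    ∃ F G : List Wd, Half a b F G ∧ Half b a G F := by
  constructor
  · rintro ⟨e0⟩
    let e : PN a ≃* PN b := (equivN a).symm.trans (e0.trans (equivN b))
    obtain ⟨F, hF0, hF⟩ := exists_words a b e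
    obtain ⟨G, hG0, hG⟩ := exists_words b a e.symm
    exact ⟨F, G, half_of a b e F G hF0 hF hG, half_of b a e.symm G F hG0 hG hF⟩
  · rintro ⟨F, G, h1, h2⟩
    obtain ⟨φ, hφ⟩ := hom_of_half a b F G h1
    obtain ⟨ψ, hψ⟩ := hom_of_half b a G F h2
    exact ⟨(equivN a).trans ((MonoidHom.toMulEquiv φ ψ (comp_id a b F G h1 φ ψ hφ hψ)
      (comp_id b a G F h2 ψ φ hψ hφ)).trans (equivN b).symm)⟩

/-! ### With derivations -/

/-- One half with derivations. -/
def HalfD (a b : ℕ × List Wd) (F G : List Wd) (D : List Der) : Prop :=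
  F.length ≤ a.1 ∧ (∀ w ∈ a.2, ∃ d ∈ D, IsDer b.1 b.2 (sub F w) d) ∧
    ∀ i ∈ List.range a.1, ∃ d ∈ D, IsDer a.1 a.2 (sub G (F.getD i []) ++ [(i, false)]) d

theorem exists_list {α : Type} (P : α → Der → Prop) (L : List α) (h : ∀ x ∈ L, ∃ d, P x d) :
    ∃ D : List Der, ∀ x ∈ L, ∃ d ∈ D, P x d := by
  induction L with
  | nil => exact ⟨[], fun x hx => absurd hx List.not_mem_nil⟩
  | cons y L ih =>
    obtain ⟨D, hD⟩ := ih (fun x hx => h x (List.mem_cons_of_mem _ hx))
    obtain ⟨d, hd⟩ := h y List.mem_cons_self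
    refine ⟨d :: D, fun x hx => ?_⟩
    rcases List.mem_cons.1 hx with rfl | hx
    · exact ⟨d, List.mem_cons_self, hd⟩
    · obtain ⟨d', h1, h2⟩ := hD x hx
      exact ⟨d', List.mem_cons_of_mem _ h1, h2⟩

theorem HalfD.mono {a b : ℕ × List Wd} {F G : List Wd} {D D' : List Der} (h : HalfD a b F G D)
    (hD : ∀ d ∈ D, d ∈ D') : HalfD a b F G D' := by
  refine ⟨h.1, fun w hw => ?_, fun i hi => ?_⟩
  · obtain ⟨d, h1, h2⟩ := h.2.1 w hw
    exact ⟨d, hD d h1, h2⟩
  · obtain ⟨d, h1, h2⟩ := h.2.2 i hi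
    exact ⟨d, hD d h1, h2⟩

theorem half_iff (a b : ℕ × List Wd) (F G : List Wd) :
    Half a b F G ↔ ∃ D, HalfD a b F G D := by
  unfold Half HalfD
  simp only [der_iff]
  constructor
  · rintro ⟨h0, h1, h2⟩
    obtain ⟨D1, hD1⟩ := exists_list (fun w d => IsDer b.1 b.2 (sub F w) d) a.2 h1
    obtain ⟨D2, hD2⟩ := exists_list
      (fun i d => IsDer a.1 a.2 (sub G (F.getD i []) ++ [(i, false)]) d) (List.range a.1) h2
    refine ⟨D1 ++ D2, h0, fun w hw => ?_, fun i hi => ?_⟩
    · obtain ⟨d, h1, h2⟩ := hD1 w hw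
      exact ⟨d, List.mem_append_left _ h1, h2⟩
    · obtain ⟨d, h1, h2⟩ := hD2 i hi
      exact ⟨d, List.mem_append_right _ h1, h2⟩
  · rintro ⟨D, h0, h1, h2⟩
    refine ⟨h0, fun w hw => ?_, fun i hi => ?_⟩
    · obtain ⟨d, _, h⟩ := h1 w hw
      exact ⟨d, h⟩
    · obtain ⟨d, _, h⟩ := h2 i hi
      exact ⟨d, h⟩

theorem iso_iff' (a b : ℕ × List Wd) : Nonempty (PG a ≃* PG b) ↔
    ∃ x : List Wd × List Wd × List Der, HalfD a b x.1 x.2.1 x.2.2 ∧ HalfD b a x.2.1 x.1 x.2.2 := by
  rw [iso_iff]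
  constructor
  · rintro ⟨F, G, h1, h2⟩
    obtain ⟨D1, hD1⟩ := (half_iff a b F G).1 h1
    obtain ⟨D2, hD2⟩ := (half_iff b a G F).1 h2
    exact ⟨(F, G, D1 ++ D2), hD1.mono fun d hd => List.mem_append_left _ hd,
      hD2.mono fun d hd => List.mem_append_right _ hd⟩
  · rintro ⟨⟨F, G, D⟩, h1, h2⟩
    exact ⟨F, G, (half_iff a b F G).2 ⟨D, h1⟩, (half_iff b a G F).2 ⟨D, h2⟩⟩

/-! ### Enumerability -/

theorem pr_sub : Primrec₂ sub := by
  refine Primrec.list_flatMap (f := fun p : List Wd × Wd => p.2)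
    (g := fun p (l : ℕ × Bool) => if l.2 = true then p.1.getD l.1 [] else inv (p.1.getD l.1 []))
    Primrec.snd ?_
  have h1 : Primrec fun q : (List Wd × Wd) × (ℕ × Bool) => q.1.1.getD q.2.1 [] :=
    (Primrec.list_getD (([] : Wd))).comp (Primrec.fst.comp Primrec.fst)
      (Primrec.fst.comp Primrec.snd)
  exact Primrec.ite (Primrec.eq.comp (Primrec.snd.comp Primrec.snd) (Primrec.const true)) h1
    (pr_inv.comp h1)

theorem pp_half {α : Type} [Primcodable α] {a b : α → ℕ × List Wd} {F G : α → List Wd}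
    {D : α → List Der} (ha : Primrec a) (hb : Primrec b) (hF : Primrec F) (hG : Primrec G)
    (hD : Primrec D) : PrimrecPred fun x => HalfD (a x) (b x) (F x) (G x) (D x) := by
  refine PrimrecPred.and ?_ (PrimrecPred.and ?_ ?_)
  · exact Primrec.nat_le.comp (Primrec.list_length.comp hF) (Primrec.fst.comp ha)
  · refine pp_forall (f := fun x => (a x).2)
      (P := fun x w => ∃ d ∈ D x, IsDer (b x).1 (b x).2 (sub (F x) w) d) (Primrec.snd.comp ha) ?_
    refine pp_exists (f := fun p : α × Wd => D p.1)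
      (P := fun p d => IsDer (b p.1).1 (b p.1).2 (sub (F p.1) p.2) d) (hD.comp Primrec.fst) ?_
    exact PrimrecPred.comp pp_isDer (Primrec.pair
      (hb.comp (Primrec.fst.comp Primrec.fst))
      (Primrec.pair (pr_sub.comp (hF.comp (Primrec.fst.comp Primrec.fst))
        (Primrec.snd.comp Primrec.fst)) Primrec.snd))
  · refine pp_forall (f := fun x => List.range (a x).1)
      (P := fun x i => ∃ d ∈ D x, IsDer (a x).1 (a x).2
        (sub (G x) ((F x).getD i []) ++ [(i, false)]) d)
      (Primrec.list_range.comp (Primrec.fst.comp ha)) ?_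
    refine pp_exists (f := fun p : α × ℕ => D p.1)
      (P := fun p d => IsDer (a p.1).1 (a p.1).2
        (sub (G p.1) ((F p.1).getD p.2 []) ++ [(p.2, false)]) d) (hD.comp Primrec.fst) ?_
    have hi : Primrec fun q : (α × ℕ) × Der => q.1.2 := Primrec.snd.comp Primrec.fst
    have h1 : Primrec fun q : (α × ℕ) × Der => (F q.1.1).getD q.1.2 [] :=
      (Primrec.list_getD (([] : Wd))).comp (hF.comp (Primrec.fst.comp Primrec.fst)) hi
    have h2 : Primrec fun q : (α × ℕ) × Der => ([(q.1.2, false)] : Wd) :=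
      Primrec.list_cons.comp (Primrec.pair hi (Primrec.const false)) (Primrec.const [])
    exact PrimrecPred.comp pp_isDer (Primrec.pair
      (ha.comp (Primrec.fst.comp Primrec.fst))
      (Primrec.pair (Primrec.list_append.comp (pr_sub.comp
        (hG.comp (Primrec.fst.comp Primrec.fst)) h1) h2) Primrec.snd))

theorem re_exists {α γ : Type} [Primcodable α] [Primcodable γ] {P : α × γ → Prop}
    (hP : PrimrecPred P) : REPred fun a => ∃ c, P (a, c) := by
  classical
  obtain ⟨inst, hP⟩ := hP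
  have hf : Computable₂ fun (a : α) (n : ℕ) =>
      ((Encodable.decode n : Option γ).bind fun c =>
        bif decide (P (a, c)) then some () else (none : Option Unit)) := by
    apply Primrec₂.to_comp
    refine Primrec.option_bind (Primrec.decode.comp Primrec.snd) ?_
    refine Primrec.cond ?_ (Primrec.const _) (Primrec.const _)
    exact hP.comp (Primrec.pair (Primrec.fst.comp Primrec.fst) Primrec.snd)
  refine (Partrec.rfindOpt hf).dom_re.of_eq fun a => ?_
  rw [Nat.rfindOpt_dom]
  constructor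
  · rintro ⟨n, u, hu⟩
    rw [Option.mem_def, Option.bind_eq_some_iff] at hu
    obtain ⟨c, _, hc⟩ := hu
    refine ⟨c, ?_⟩
    by_contra hn
    simp [hn] at hc
  · rintro ⟨c, hc⟩
    refine ⟨Encodable.encode c, (), ?_⟩
    rw [Option.mem_def, Encodable.encodek]
    simp [hc]

/-- RE. -/
theorem t : StmRE := by
  have h1 : PrimrecPred fun q : ((ℕ × List Wd) × (ℕ × List Wd)) × (List Wd × List Wd × List Der) =>
      HalfD q.1.1 q.1.2 q.2.1 q.2.2.1 q.2.2.2 ∧ HalfD q.1.2 q.1.1 q.2.2.1 q.2.1 q.2.2.2 := by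
    have ha : Primrec fun q : ((ℕ × List Wd) × (ℕ × List Wd)) × (List Wd × List Wd × List Der) =>
        q.1.1 := Primrec.fst.comp Primrec.fst
    have hb : Primrec fun q : ((ℕ × List Wd) × (ℕ × List Wd)) × (List Wd × List Wd × List Der) =>
        q.1.2 := Primrec.snd.comp Primrec.fst
    have hF : Primrec fun q : ((ℕ × List Wd) × (ℕ × List Wd)) × (List Wd × List Wd × List Der) =>
        q.2.1 := Primrec.fst.comp Primrec.snd
    have hG : Primrec fun q : ((ℕ × List Wd) × (ℕ × List Wd)) × (List Wd × List Wd × List Der) =>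
        q.2.2.1 := Primrec.fst.comp (Primrec.snd.comp Primrec.snd)
    have hD : Primrec fun q : ((ℕ × List Wd) × (ℕ × List Wd)) × (List Wd × List Wd × List Der) =>
        q.2.2.2 := Primrec.snd.comp (Primrec.snd.comp Primrec.snd)
    exact PrimrecPred.and (pp_half ha hb hF hG hD) (pp_half hb ha hG hF hD)
  exact (re_exists h1).of_eq fun p => (iso_iff' p.1 p.2).symm

end Pool.Agent.X25.ISO
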